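import Pool.Agent.Lib.MP_9dacbe_co.Geo
import Pool.Agent.Lib.MP_9dacbe_co.BigGeo
import Pool.Agent.Lib.MP_9dacbe_co.T13Geo

namespace Pool.Agent.Results.MP_9dacbe_co.FromThirteen

open Pool.Agent.Lib.MP_9dacbe_co

theorem result (n : ℕ) (hn : 13 ≤ n) : Draw (IsLine n) (n ^ 4 / 2) ∅ ∅ := by
  obtain rfl | rfl | h : n = 13 ∨ n = 14 ∨ 15 ≤ n := by omega
  exacts [T13.draw13, draw14, Gen.drawBig n h]

end Pool.Agent.Results.MP_9dacbe_co.FromThirteen
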